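import Pool.Agent.Helper59.TE.Final

set_option autoImplicit false

namespace Pool.Agent.Results.MP_c34bd5_al.TranslationEquivalence

open Pool.Agent.Helper59.TE

/-- `F_r` acts by isometries on `T`, and `T` is an ℝ-tree: any two points `a`, `b` are joined by an
isometrically embedded segment of length `dist a b`, and the four point condition
(0-hyperbolicity) holds. -/
def IsTreeAction (r : ℕ) (T : Type) [MetricSpace T] [MulAction (FreeGroup (Fin r)) T] : Prop :=
  (∀ a b : T, ∃ γ : ℝ → T, γ 0 = a ∧ γ (dist a b) = b ∧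
      ∀ s ∈ Set.Icc (0 : ℝ) (dist a b), ∀ t ∈ Set.Icc (0 : ℝ) (dist a b),
        dist (γ s) (γ t) = |s - t|) ∧
    (∀ a b c d : T, dist a b + dist c d ≤ max (dist a c + dist b d) (dist a d + dist b c)) ∧
    ∀ g : FreeGroup (Fin r), Isometry (fun p : T => g • p)

/-- The action of `F_r` on `T` is free and its orbits are discrete. -/
def FreeDiscrete (r : ℕ) (T : Type) [MetricSpace T] [MulAction (FreeGroup (Fin r)) T] : Prop :=
  (∀ (g : FreeGroup (Fin r)) (p : T), g • p = p → g = 1) ∧
    ∀ p : T, ∃ ε > 0, ∀ g : FreeGroup (Fin r), g ≠ 1 → ε ≤ dist p (g • p)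

/-- Every nontrivial element moves every point by at least `1`, and the action is metrically
proper. -/
def UniformlyFreeProper (r : ℕ) (T : Type) [MetricSpace T] [MulAction (FreeGroup (Fin r)) T] :
    Prop :=
  (∀ g : FreeGroup (Fin r), g ≠ 1 → ∀ p : T, 1 ≤ dist p (g • p)) ∧
    ∀ (p : T) (R : ℝ), {g : FreeGroup (Fin r) | dist p (g • p) ≤ R}.Finite

/-- The translation length of `g`. -/
noncomputable def tl (r : ℕ) (T : Type) [MetricSpace T] [MulAction (FreeGroup (Fin r)) T]
    (g : FreeGroup (Fin r)) : ℝ := ⨅ p : T, dist p (g • p)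

/-- The finite list of tests is a primitive recursive predicate. -/
theorem prim_main : PrimrecPred (fun x : ℕ × List (ℕ × Bool) × List (ℕ × Bool) =>
    ∀ W ∈ F1_tests x.1 (finalB x.1 (x.2.1.length + x.2.2.length)), TestOK x.1 x.2.1 x.2.2 W) := by
  have hb : Primrec fun x : ℕ × Wd × Wd => finalB x.1 (x.2.1.length + x.2.2.length) :=
    F1_finalB.comp Primrec.fst (Primrec.nat_add.comp
      (Primrec.list_length.comp (Primrec.fst.comp Primrec.snd))
      (Primrec.list_length.comp (Primrec.snd.comp Primrec.snd)))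
  exact F1_TestOK.forall_mem_list.comp (F1_tests_primrec.comp Primrec.fst hb) Primrec.id

/-- The tree attached to an injective homomorphism into a free group with weighted generators. -/
theorem tree_of_ne (r : ℕ) (φ : FreeGroup (Fin r) →* FreeGroup ℕ) (hφ : Function.Injective φ)
    (wt : ℕ → ℕ) (hw : ∀ a, 1 ≤ wt a)
    (hfin : ∀ R : ℕ, {g : FreeGroup (Fin r) | wlen wt (φ g) ≤ R}.Finite)
    (u v : FreeGroup (Fin r))
    (hne : wlen wt (φ (u * u)) + wlen wt (φ v) ≠ wlen wt (φ (v * v)) + wlen wt (φ u)) :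
    ∃ (T : Type) (_ : MetricSpace T) (_ : MulAction (FreeGroup (Fin r)) T), IsTreeAction r T ∧
      UniformlyFreeProper r T ∧ tl r T u ≠ tl r T v := by
  obtain ⟨T, hm, ha, p, hT, hiso, hd⟩ := exists_tree (G := FreeGroup (Fin r))
    (fun g => (wlen wt (φ g) : ℝ)) (by simp [wlen]) (fun g => by rw [map_inv, wlen_inv])
    (fun g h k => by
      have := wlen_hyp wt (φ g) (φ h) (φ k)
      simpa only [map_mul, map_inv] using this)
  have hgg : ∀ g : FreeGroup (Fin r), dist p (g • (g • p)) = wlen wt (φ (g * g)) := by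
    intro g
    rw [← mul_smul, hd]
  have hpos : ∀ g : FreeGroup (Fin r), g ≠ 1 → 1 ≤ dist p (g • (g • p)) - dist p (g • p) := by
    intro g hg
    rw [hgg, hd]
    have h1 : φ g ≠ 1 := fun hh => hg (hφ (by rw [hh, map_one]))
    have := wlen_sq wt hw (φ g) h1
    rw [← map_mul] at this
    have h2 : ((wlen wt (φ g) + 1 : ℕ) : ℝ) ≤ wlen wt (φ (g * g)) := by exact_mod_cast this
    push_cast at h2
    linarith
  have hq : ∀ (g : FreeGroup (Fin r)) (q : T), g ≠ 1 → 1 ≤ dist q (g • q) := by
    intro g q hg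
    have := hyp_le hT (fun q : T => g • q) (hiso g) p (by linarith [hpos g hg]) q
    linarith [hpos g hg]
  have hinf : ∀ g : FreeGroup (Fin r), (⨅ q : T, dist q (g • q)) =
      (wlen wt (φ (g * g)) : ℝ) - wlen wt (φ g) := by
    intro g
    by_cases hg : g = 1
    · subst hg
      have : Nonempty T := ⟨p⟩
      simp
    · rw [hyp_iInf hT (fun q : T => g • q) (hiso g) p (by linarith [hpos g hg]), hgg, hd]
  refine ⟨T, hm, ha, ⟨hT.geo, hT.four, hiso⟩, ⟨fun g hg q => hq g q hg, ?_⟩, ?_⟩
  · intro q R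
    obtain ⟨n, hn⟩ := exists_nat_ge (R + 2 * dist p q)
    refine (hfin n).subset fun g hg => ?_
    have hg1 : dist q (g • q) ≤ R := hg
    have h1 : dist p (g • p) ≤ dist p q + dist q (g • q) + dist (g • q) (g • p) :=
      dist_triangle4 _ _ _ _
    have h2 : dist (g • q) (g • p) = dist q p := (hiso g).dist_eq q p
    rw [h2, dist_comm q p, hd] at h1
    have h3 : (wlen wt (φ g) : ℝ) ≤ n := by linarith
    exact_mod_cast h3
  · unfold tl
    rw [hinf, hinf]
    intro h
    apply hne
    have h3 : ((wlen wt (φ (u * u)) + wlen wt (φ v) : ℕ) : ℝ) =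
        (wlen wt (φ (v * v)) + wlen wt (φ u) : ℕ) := by
      push_cast
      linarith
    exact_mod_cast h3

/-- Only finitely many elements have an image of bounded weight. -/
theorem finite_wlen (r : ℕ) (W : List Wd) (hW : W.length = r) (hK : Kill r W) (wt : ℕ → ℕ)
    (hw : ∀ a, 1 ≤ wt a) (R : ℕ) :
    {g : FreeGroup (Fin r) | wlen wt (B4_phi r W g) ≤ R}.Finite := by
  -- a bound for the letters
  obtain ⟨M, hM⟩ : ∃ M : ℕ, r ≤ M ∧ ∀ l ∈ W, ∀ p ∈ l, p.1 < M := by
    refine ⟨r + ((W.flatten).map (fun p => p.1 + 1)).sum, by omega, ?_⟩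
    intro l hl p hp
    have h1 : p ∈ W.flatten := List.mem_flatten.2 ⟨l, hl, hp⟩
    have h2 : p.1 + 1 ≤ ((W.flatten).map (fun p => p.1 + 1)).sum :=
      List.single_le_sum (fun _ _ => Nat.zero_le _) _ (List.mem_map.2 ⟨p, h1, rfl⟩)
    omega
  have hlet : ∀ g : FreeGroup (Fin r), ∀ p ∈ (B4_phi r W g).toWord, p.1 < M := by
    intro g p hp
    have h1 : B4_phi r W g = FreeGroup.mk (sub W (toN g.toWord)) := by
      conv_lhs => rw [← FreeGroup.mk_toWord (x := g)]
      rw [B4_phi_mk]
    rw [h1, FreeGroup.toWord_mk] at hp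
    have h2 : p ∈ sub W (toN g.toWord) := (FreeGroup.Red.sublist FreeGroup.reduce.red).subset hp
    unfold sub at h2
    rw [List.mem_flatMap] at h2
    obtain ⟨q, hq, hpq⟩ := h2
    obtain ⟨q', -, rfl⟩ := List.mem_map.1 hq
    have hq'r : (q'.1 : ℕ) < r := q'.1.2
    have hgetD : ∀ s ∈ W.getD (q'.1 : ℕ) [], s.1 < M := by
      intro s hs
      rw [List.getD_eq_getElem _ _ (by rw [hW]; exact hq'r)] at hs
      exact hM.2 _ (List.getElem_mem _) s hs
    have hinvRev : ∀ s ∈ FreeGroup.invRev (W.getD (q'.1 : ℕ) []), s.1 < M := by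
      intro s hs
      unfold FreeGroup.invRev at hs
      rw [List.mem_reverse, List.mem_map] at hs
      obtain ⟨t, ht, rfl⟩ := hs
      exact hgetD t ht
    simp only at hpq
    split_ifs at hpq with hb
    · rcases List.mem_append.1 hpq with h | h
      · exact hgetD p h
      · rw [List.mem_singleton] at h
        rw [h]
        exact lt_of_lt_of_le hq'r hM.1
    · rcases List.mem_cons.1 hpq with h | h
      · rw [h]
        exact lt_of_lt_of_le hq'r hM.1
      · exact hinvRev p h
  have hlen : ∀ g : FreeGroup (Fin r), wlen wt (B4_phi r W g) ≤ R →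
      (B4_phi r W g).toWord.length ≤ R := by
    intro g hg
    refine le_trans ?_ hg
    rw [B3_wlen]
    exact B3_len_le wt hw _
  refine Set.Finite.of_finite_image (f := fun g => (B4_phi r W g).toWord) ?_ ?_
  · refine (List.finite_toSet (F1_words M R)).subset ?_
    rintro w ⟨g, hg, rfl⟩
    exact (F1_mem_words M R _).2 ⟨hlen g hg, hlet g⟩
  · intro a _ b _ hab
    exact B4_phi_inj r W hW hK (FreeGroup.toWord_injective hab)

/-- A failing test gives a tree. -/
theorem tree_of_test (r : ℕ) (u v : List (Fin r × Bool)) (W : List Wd)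
    (h : ¬ TestOK r (toN u) (toN v) W) :
    ∃ (T : Type) (_ : MetricSpace T) (_ : MulAction (FreeGroup (Fin r)) T), IsTreeAction r T ∧
      UniformlyFreeProper r T ∧ tl r T (FreeGroup.mk u) ≠ tl r T (FreeGroup.mk v) := by
  unfold TestOK at h
  push Not at h
  obtain ⟨hW, hK, hnt⟩ := h
  have happ : ∀ l l' : List (Fin r × Bool), toN (l ++ l') = toN l ++ toN l' := by
    intro l l'
    simp [toN]
  have key : ∀ N : ℕ, 1 ≤ N →
      (N * nt r (sub W (toN u ++ toN u)) + B4_nx r (sub W (toN u ++ toN u))) +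
      (N * nt r (sub W (toN v)) + B4_nx r (sub W (toN v))) ≠
      (N * nt r (sub W (toN v ++ toN v)) + B4_nx r (sub W (toN v ++ toN v))) +
      (N * nt r (sub W (toN u)) + B4_nx r (sub W (toN u))) →
      ∃ (T : Type) (_ : MetricSpace T) (_ : MulAction (FreeGroup (Fin r)) T), IsTreeAction r T ∧
      UniformlyFreeProper r T ∧ tl r T (FreeGroup.mk u) ≠ tl r T (FreeGroup.mk v) := by
    intro N hN hne
    have hw : ∀ a : ℕ, 1 ≤ (fun n => if r ≤ n then N else 1) a := by
      intro a
      simp only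
      split_ifs
      exacts [hN, le_refl _]
    refine tree_of_ne r (B4_phi r W) (B4_phi_inj r W hW hK) (fun n => if r ≤ n then N else 1) hw
      (finite_wlen r W hW hK _ hw) _ _ ?_
    rw [FreeGroup.mul_mk, FreeGroup.mul_mk, B4_phi_mk, B4_phi_mk, B4_phi_mk, B4_phi_mk, B4_wlen_mk,
      B4_wlen_mk, B4_wlen_mk, B4_wlen_mk, happ, happ]
    exact hne
  by_cases h1 : (1 * nt r (sub W (toN u ++ toN u)) + B4_nx r (sub W (toN u ++ toN u))) +
      (1 * nt r (sub W (toN v)) + B4_nx r (sub W (toN v))) =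
      (1 * nt r (sub W (toN v ++ toN v)) + B4_nx r (sub W (toN v ++ toN v))) +
      (1 * nt r (sub W (toN u)) + B4_nx r (sub W (toN u)))
  · refine key 2 (by norm_num) fun h2 => hnt ?_
    omega
  · exact key 1 le_rfl h1

/-- Translation equivalence in free groups of finite rank is decidable, by a primitive recursive
procedure. The input is the rank `r` and two words in the letters `x_i^{±1}`, `i < r`. -/
theorem result :
    ∃ f : ℕ × List (ℕ × Bool) × List (ℕ × Bool) → Bool, Primrec f ∧
      ∀ (r : ℕ) (u v : List (Fin r × Bool)),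
        (f (r, u.map (fun x => ((x.1 : ℕ), x.2)), v.map (fun x => ((x.1 : ℕ), x.2))) = true →
          ∀ (T : Type) [MetricSpace T] [MulAction (FreeGroup (Fin r)) T],
            IsTreeAction r T → FreeDiscrete r T →
              tl r T (FreeGroup.mk u) = tl r T (FreeGroup.mk v)) ∧
        (f (r, u.map (fun x => ((x.1 : ℕ), x.2)), v.map (fun x => ((x.1 : ℕ), x.2))) = false →
          ∃ (T : Type) (_ : MetricSpace T) (_ : MulAction (FreeGroup (Fin r)) T),
            IsTreeAction r T ∧ UniformlyFreeProper r T ∧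
              tl r T (FreeGroup.mk u) ≠ tl r T (FreeGroup.mk v)) := by
  obtain ⟨hdec, hprim⟩ := prim_main
  refine ⟨_, hprim, fun r u v => ⟨fun h T _ _ hT hfd => ?_, fun h => ?_⟩⟩
  · rw [decide_eq_true_eq] at h
    have h1 : TransEq r (FreeGroup.mk u) (FreeGroup.mk v) := by
      apply completeness
      intro W hW
      by_cases hlen : W.length = r
      · refine h W ((F1_mem_tests _ _ W).2 ⟨hlen, ?_⟩)
        simpa using hW
      · exact fun hlen' => absurd hlen' hlen
    exact h1 T hT.1 hT.2.1 hT.2.2 hfd.1 hfd.2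
  · rw [decide_eq_false_iff_not] at h
    push Not at h
    obtain ⟨W, -, hW⟩ := h
    exact tree_of_test r u v W hW

end Pool.Agent.Results.MP_c34bd5_al.TranslationEquivalence
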